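import Pool.Agent.H80.FB.Parity
import Pool.Agent.H73.FR.Comp

/-!
# The lower bound for `|A + A + M_g|` for arbitrary sets of monomials
-/

set_option autoImplicit false

open Finset
open scoped Pointwise

namespace Pool.Agent.H80.FB

variable {m J g : ℕ}

theorem MM_one_eq (j : ℕ) : MM 1 j = {fun _ => j} := by
  ext a
  rw [mem_MM, Finset.mem_singleton]
  constructor
  · intro h
    funext i
    rw [Fin.sum_univ_one] at h
    rw [Subsingleton.elim i 0, h]
  · rintro rfl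
    simp

/-- the bound for stable sets -/
theorem stable_count {A : Finset (Fin (m + 1) → ℕ)} (hJ : A ⊆ MM (m + 1) J) (hne : A.Nonempty) (hs : Stable A) :
    ∃ v : ℚ, (A.card : ℚ) ≤ v * ((MM (m + 1) J).card : ℚ) ∧ v ≤ 1 ∧ 0 ≤ v ∧
      2 ^ m * (A.card : ℚ) + v * (((MM (m + 1) (2 * J + g)).card : ℚ) - 2 ^ m * ((MM (m + 1) J).card : ℚ)) ≤
        ((A + A + MM (m + 1) g).card : ℚ) := by
  by_cases hpos : 0 < (MM m J).card
  · exact stable_count_aux hJ hs hpos
  · have hm : m = 0 := by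
      by_contra hm
      apply hpos
      obtain ⟨k, rfl⟩ := Nat.exists_eq_succ_of_ne_zero hm
      refine Finset.card_pos.2 ⟨cn J 0, ?_⟩
      rw [cn_mem_MM]
      simp
    subst hm
    have hA : A = MM 1 J := by
      have h1 : A ⊆ {fun _ => J} := by rw [← MM_one_eq]; exact hJ
      rw [MM_one_eq]
      exact (Finset.subset_singleton_iff.1 h1).resolve_left hne.ne_empty
    subst hA
    refine ⟨1, by simp, le_rfl, zero_le_one, ?_⟩
    have h1 : MM 1 J + MM 1 J + MM (0 + 1) g = MM 1 (J + J + g) := by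
      rw [MM_add]
      exact MM_add 1 (J + J) g
    have h2 : ∀ j, (MM (0 + 1) j).card = 1 := fun j => by
      show (MM 1 j).card = 1
      rw [MM_one_eq, Finset.card_singleton]
    have h3 : ∀ j, (MM 1 j).card = 1 := h2
    simp only [h1, h2, h3]
    norm_num

theorem stable_of {n : ℕ} {A : Finset (Fin n → ℕ)} (h : H73FR.Stable A) : Stable A := by
  intro b p q hpq hb
  have h1 := h p q hpq _ hb (by simp [ee])
  have h2 : b + ee p - Pi.single p 1 + Pi.single q 1 = b + ee q := by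
    rw [show (Pi.single p 1 : Fin n → ℕ) = ee p from rfl, show (Pi.single q 1 : Fin n → ℕ) = ee q from rfl,
      add_tsub_cancel_right]
  rwa [h2] at h1

/-- the bound for arbitrary sets of monomials of degree `J` -/
theorem count (g : ℕ) {A : Finset (Fin (m + 1) → ℕ)} (hJ : A ⊆ MM (m + 1) J) (hne : A.Nonempty) :
    ∃ v : ℚ, (A.card : ℚ) ≤ v * ((MM (m + 1) J).card : ℚ) ∧ v ≤ 1 ∧ 0 ≤ v ∧
      2 ^ m * (A.card : ℚ) + v * (((MM (m + 1) (2 * J + g)).card : ℚ) - 2 ^ m * ((MM (m + 1) J).card : ℚ)) ≤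
        ((A + A + MM (m + 1) g).card : ℚ) := by
  obtain ⟨A', h1, h2, h3, h4⟩ := H73FR.exists_stable g hJ
  have hne' : A'.Nonempty := by
    rw [← Finset.card_pos, h2]
    exact Finset.card_pos.2 hne
  obtain ⟨v, hv1, hv2, hv3, hv4⟩ := stable_count (g := g) h1 hne' (stable_of h3)
  rw [h2] at hv1 hv4
  refine ⟨v, hv1, hv2, hv3, hv4.trans ?_⟩
  exact_mod_cast h4

/-- the density bound, when `2 ^ m dim S_J ≤ dim S_D` -/
theorem count_low (g : ℕ) {A : Finset (Fin (m + 1) → ℕ)} (hJ : A ⊆ MM (m + 1) J) (hne : A.Nonempty)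
    (h : 2 ^ m * (MM (m + 1) J).card ≤ (MM (m + 1) (2 * J + g)).card) :
    A.card * (MM (m + 1) (2 * J + g)).card ≤ (A + A + MM (m + 1) g).card * (MM (m + 1) J).card := by
  obtain ⟨v, hv1, hv2, hv3, hv4⟩ := count g hJ hne
  have hN : (0 : ℚ) < ((MM (m + 1) J).card : ℚ) := by
    exact_mod_cast Finset.card_pos.2 (hne.mono hJ)
  have hq : (0 : ℚ) ≤ ((MM (m + 1) (2 * J + g)).card : ℚ) - 2 ^ m * ((MM (m + 1) J).card : ℚ) := by
    rw [sub_nonneg]
    exact_mod_cast h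
  have h1 : (A.card : ℚ) * (((MM (m + 1) (2 * J + g)).card : ℚ) - 2 ^ m * ((MM (m + 1) J).card : ℚ)) ≤
      v * ((MM (m + 1) J).card : ℚ) * (((MM (m + 1) (2 * J + g)).card : ℚ) - 2 ^ m * ((MM (m + 1) J).card : ℚ)) :=
    mul_le_mul_of_nonneg_right hv1 hq
  have h2 := mul_le_mul_of_nonneg_right hv4 hN.le
  have h3 : (A.card : ℚ) * ((MM (m + 1) (2 * J + g)).card : ℚ) ≤
      ((A + A + MM (m + 1) g).card : ℚ) * ((MM (m + 1) J).card : ℚ) := by
    nlinarith
  exact_mod_cast h3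

/-- the bound when `dim S_D ≤ 2 ^ m dim S_J` -/
theorem count_high (g : ℕ) {A : Finset (Fin (m + 1) → ℕ)} (hJ : A ⊆ MM (m + 1) J) (hne : A.Nonempty)
    (h : (MM (m + 1) (2 * J + g)).card ≤ 2 ^ m * (MM (m + 1) J).card) :
    (MM (m + 1) (2 * J + g)).card + 2 ^ m * A.card ≤ (A + A + MM (m + 1) g).card + 2 ^ m * (MM (m + 1) J).card := by
  obtain ⟨v, hv1, hv2, hv3, hv4⟩ := count g hJ hne
  have hq : ((MM (m + 1) (2 * J + g)).card : ℚ) - 2 ^ m * ((MM (m + 1) J).card : ℚ) ≤ 0 := by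
    rw [sub_nonpos]
    exact_mod_cast h
  have h3 : ((MM (m + 1) (2 * J + g)).card : ℚ) + 2 ^ m * (A.card : ℚ) ≤
      ((A + A + MM (m + 1) g).card : ℚ) + 2 ^ m * ((MM (m + 1) J).card : ℚ) := by
    nlinarith [mul_le_mul_of_nonpos_right hv2 hq]
  exact_mod_cast h3

end Pool.Agent.H80.FB
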