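import Pool.Agent.H80.FB.Slice

/-!
# Parity classes of monomials and the lower bound for `|A + A + MM g|`, `A` stable
-/

set_option autoImplicit false

open Finset
open scoped Pointwise

namespace Pool.Agent.H80.FB

variable {m : ℕ}

/-- the indicator of a set of variables -/
def ind {n : ℕ} (R : Finset (Fin n)) : Fin n → ℕ := fun i => if i ∈ R then 1 else 0

theorem sum_ind {n : ℕ} (R : Finset (Fin n)) : ∑ i, ind R i = R.card := by
  simp [ind]

theorem ind_mem {n : ℕ} (R : Finset (Fin n)) : ind R ∈ MM n R.card := mem_MM.2 (sum_ind R)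

/-- the set of odd coordinates -/
def par {n : ℕ} (x : Fin n → ℕ) : Finset (Fin n) := Finset.univ.filter fun i => x i % 2 = 1

theorem half_add {n : ℕ} (x : Fin n → ℕ) : (fun i => x i / 2) + (fun i => x i / 2) + ind (par x) = x := by
  funext i
  simp only [Pi.add_apply, ind, par, Finset.mem_filter, Finset.mem_univ, true_and]
  split_ifs with h <;> omega

theorem par_add {n : ℕ} (z : Fin n → ℕ) (R : Finset (Fin n)) : par (z + z + ind R) = R := by
  ext i
  simp only [par, Finset.mem_filter, Finset.mem_univ, true_and, Pi.add_apply, ind]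
  split_ifs with h <;> simp [h] <;> omega

theorem dbl_inj {n : ℕ} (R : Finset (Fin n)) : Function.Injective fun z : Fin n → ℕ => z + z + ind R := by
  intro z w h
  funext i
  have := congrFun h i
  simp only [Pi.add_apply] at this
  omega

/-- the elements of `X` of parity class `R` -/
def cls {n : ℕ} (X : Finset (Fin n → ℕ)) (R : Finset (Fin n)) : Finset (Fin n → ℕ) := X.filter fun x => par x = R

theorem card_eq_sum_cls {n : ℕ} (X : Finset (Fin n → ℕ)) : X.card = ∑ R : Finset (Fin n), (cls X R).card :=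
  Finset.card_eq_sum_card_fiberwise (f := par) (t := Finset.univ) (fun _ _ => Finset.mem_coe.2 (Finset.mem_univ _))

theorem card_le_cls {n : ℕ} {X Z : Finset (Fin n → ℕ)} {R : Finset (Fin n)} (h : ∀ z ∈ Z, z + z + ind R ∈ X) :
    Z.card ≤ (cls X R).card := by
  refine Finset.card_le_card_of_injOn (fun z => z + z + ind R) ?_ (fun a _ b _ hab => dbl_inj R hab)
  intro z hz
  exact Finset.mem_coe.2 (Finset.mem_filter.2 ⟨h z hz, par_add z R⟩)

theorem cls_MM {n D : ℕ} {R : Finset (Fin n)} {x : Fin n → ℕ} (hx : x ∈ cls (MM n D) R) :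
    ∃ z : Fin n → ℕ, x = z + z + ind R ∧ 2 * (∑ i, z i) + R.card = D := by
  rw [cls, Finset.mem_filter] at hx
  refine ⟨fun i => x i / 2, ?_, ?_⟩
  · rw [← hx.2]
    exact (half_add x).symm
  · have h1 := mem_MM.1 hx.1
    rw [← half_add x, hx.2] at h1
    simp only [Pi.add_apply, Finset.sum_add_distrib, sum_ind] at h1
    show 2 * (∑ i, x i / 2) + R.card = D
    omega

theorem card_cls_MM {n D j : ℕ} {R : Finset (Fin n)} (h : 2 * j + R.card = D) :
    (cls (MM n D) R).card ≤ (MM n j).card := by
  have hsub : cls (MM n D) R ⊆ (MM n j).image fun z => z + z + ind R := by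
    intro x hx
    obtain ⟨z, hz, hs⟩ := cls_MM hx
    refine Finset.mem_image.2 ⟨z, mem_MM.2 (by omega), hz.symm⟩
  exact (Finset.card_le_card hsub).trans Finset.card_image_le

theorem cls_MM_empty {n D : ℕ} {R : Finset (Fin n)} (h : ∀ j, 2 * j + R.card ≠ D) :
    (cls (MM n D) R).card = 0 := by
  rw [Finset.card_eq_zero, Finset.eq_empty_iff_forall_notMem]
  intro x hx
  obtain ⟨z, _, hs⟩ := cls_MM hx
  exact h _ hs

/-- the number of subsets of `Fin (m + 1)` of given parity -/
theorem card_parity (m : ℕ) (g : ℕ) :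
    ((Finset.univ : Finset (Finset (Fin (m + 1)))).filter fun R => R.card % 2 = g % 2).card = 2 ^ m := by
  classical
  -- toggle the element `0`
  let tg : Finset (Fin (m + 1)) → Finset (Fin (m + 1)) := fun R => if (0 : Fin (m + 1)) ∈ R then R.erase 0 else insert 0 R
  have htg : ∀ R, tg (tg R) = R := by
    intro R
    by_cases h : (0 : Fin (m + 1)) ∈ R
    · simp [tg, h]
    · simp [tg, h]
  have hcard : ∀ R, (tg R).card % 2 = (R.card + 1) % 2 := by
    intro R
    by_cases h : (0 : Fin (m + 1)) ∈ R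
    · have hp : 0 < R.card := Finset.card_pos.2 ⟨_, h⟩
      simp only [tg, h, if_true, Finset.card_erase_of_mem h]
      omega
    · simp only [tg, h, if_false, Finset.card_insert_of_notMem h]
  have h1 : ((Finset.univ : Finset (Finset (Fin (m + 1)))).filter fun R => R.card % 2 = g % 2).card =
      ((Finset.univ : Finset (Finset (Fin (m + 1)))).filter fun R => ¬ R.card % 2 = g % 2).card := by
    refine Finset.card_bij' (fun R _ => tg R) (fun R _ => tg R) ?_ ?_ (fun R _ => htg R) (fun R _ => htg R)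
    · intro R hR
      rw [Finset.mem_filter] at hR ⊢
      have := hcard R
      exact ⟨Finset.mem_univ _, by omega⟩
    · intro R hR
      rw [Finset.mem_filter] at hR ⊢
      have := hcard R
      exact ⟨Finset.mem_univ _, by omega⟩
  have h2 := Finset.card_filter_add_card_filter_not (s := (Finset.univ : Finset (Finset (Fin (m + 1)))))
    (fun R => R.card % 2 = g % 2)
  rw [← h1, Finset.card_univ, Fintype.card_finset, Fintype.card_fin, pow_succ] at h2
  omega

section main

variable {J g : ℕ} {A : Finset (Fin (m + 1) → ℕ)}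

/-- classes with at most `g` odd coordinates -/
theorem class_up {i : ℕ} {R : Finset (Fin (m + 1))} (hR : R.card + 2 * i = g) :
    (A + MM (m + 1) i).card ≤ (cls (A + A + MM (m + 1) g) R).card := by
  refine card_le_cls ?_
  intro z hz
  obtain ⟨a, ha, μ, hμ, rfl⟩ := Finset.mem_add.1 hz
  refine Finset.mem_add.2 ⟨a + a, Finset.add_mem_add ha ha, μ + μ + ind R, ?_, by abel⟩
  have h1 := add_mem (add_mem hμ hμ) (ind_mem R)
  have h2 : i + i + R.card = g := by omega
  rwa [h2] at h1

theorem exists_two_subsets {n k : ℕ} {R : Finset (Fin n)} (hR : 2 * k ≤ R.card) :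
    ∃ s t : Finset (Fin n), s.card = k ∧ t.card = k ∧ ∃ u : Finset (Fin n), u.card = R.card - 2 * k ∧
      ind R = ind s + ind t + ind u := by
  obtain ⟨s, hs, hsc⟩ := Finset.exists_subset_card_eq (s := R) (n := k) (by omega)
  have h1 : (R \ s).card = R.card - k := by rw [Finset.card_sdiff_of_subset hs, hsc]
  obtain ⟨t, ht, htc⟩ := Finset.exists_subset_card_eq (s := R \ s) (n := k) (by omega)
  refine ⟨s, t, hsc, htc, (R \ s) \ t, ?_, ?_⟩
  · rw [Finset.card_sdiff_of_subset ht, h1, htc]
    omega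
  · funext i
    simp only [ind, Pi.add_apply, Finset.mem_sdiff]
    have hst : i ∈ t → i ∈ R ∧ i ∉ s := fun h => Finset.mem_sdiff.1 (ht h)
    have hsR : i ∈ s → i ∈ R := fun h => hs h
    by_cases h1 : i ∈ R <;> by_cases h2 : i ∈ s <;> by_cases h3 : i ∈ t
    all_goals
      first
      | exact absurd (hsR h2) h1
      | exact absurd (hst h3).1 h1
      | exact absurd h2 (hst h3).2
      | simp [h1, h2, h3]

/-- classes with more than `g` odd coordinates -/
theorem class_down (hs : Stable A) {k : ℕ} {R : Finset (Fin (m + 1))} (hR : R.card = g + 2 * k) :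
    (A.filter fun a => k ≤ a 0).card ≤ (cls (A + A + MM (m + 1) g) R).card := by
  have hinj : Set.InjOn (fun a : Fin (m + 1) → ℕ => cn (a 0 - k) (Fin.tail a))
      (A.filter fun a => k ≤ a 0 : Finset (Fin (m + 1) → ℕ)) := by
    intro a ha b hb h
    rw [Finset.mem_coe, Finset.mem_filter] at ha hb
    obtain ⟨h1, h2⟩ := cn_inj h
    rw [← cn_tail a, ← cn_tail b, h2]
    congr 1
    omega
  rw [← Finset.card_image_of_injOn hinj]
  refine card_le_cls ?_
  intro z hz
  obtain ⟨a, ha, rfl⟩ := Finset.mem_image.1 hz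
  rw [Finset.mem_filter] at ha
  obtain ⟨s, t, hs1, ht1, u, hu1, hu⟩ := exists_two_subsets (R := R) (k := k) (by omega)
  set z : Fin (m + 1) → ℕ := cn (a 0 - k) (Fin.tail a) with hz
  have hzA : z + cn k 0 ∈ A := by
    rw [hz, cn_add, add_zero, Nat.sub_add_cancel ha.2, cn_tail]
    exact ha.1
  have h1 : z + ind s ∈ A := hs.shift k z _ hzA (by rw [← hs1]; exact ind_mem s)
  have h2 : z + ind t ∈ A := hs.shift k z _ hzA (by rw [← ht1]; exact ind_mem t)
  refine Finset.mem_add.2 ⟨(z + ind s) + (z + ind t), Finset.add_mem_add h1 h2, ind u, ?_, by rw [hu]; abel⟩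
  have h3 := ind_mem u
  rw [hu1, hR, Nat.add_sub_cancel] at h3
  exact h3

/-- the bound in each parity class -/
theorem class_bound (hJ : A ⊆ MM (m + 1) J) (hs : Stable A) (hpos : 0 < (MM m J).card)
    {R : Finset (Fin (m + 1))} (hR : R.card % 2 = g % 2) :
    (A.card : ℚ) + ((sl A 0).card : ℚ) / ((MM m J).card : ℚ) *
        (((cls (MM (m + 1) (2 * J + g)) R).card : ℚ) - ((MM (m + 1) J).card : ℚ)) ≤
      ((cls (A + A + MM (m + 1) g) R).card : ℚ) := by
  set v : ℚ := ((sl A 0).card : ℚ) / ((MM m J).card : ℚ) with hv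
  have hposQ : (0 : ℚ) < ((MM m J).card : ℚ) := by exact_mod_cast hpos
  have hv0 : 0 ≤ v := by positivity
  by_cases hle : R.card ≤ g
  · obtain ⟨i, hi⟩ : ∃ i, R.card + 2 * i = g := ⟨(g - R.card) / 2, by omega⟩
    have h1 := class_up (A := A) hi
    have h2 := card_add_MM (i := i) hJ
    have h3 : (cls (MM (m + 1) (2 * J + g)) R).card ≤ (MM (m + 1) (J + i)).card :=
      card_cls_MM (by omega)
    have h4 := sum_MM_up m J i
    -- the slices
    have h5 : ∀ l, v * ((MM m (J + l)).card : ℚ) ≤ ((sl A 0 + MM m l).card : ℚ) := by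
      intro l
      have h6 := match_add (sl A 0) (by simpa using sl_subset (s := 0) hJ) l
      rw [hv, div_mul_eq_mul_div, div_le_iff₀ hposQ]
      exact_mod_cast h6
    have h7 : v * (∑ s ∈ range i, ((MM m (J + (i - s))).card : ℚ)) ≤
        ∑ s ∈ range i, ((sl A 0 + MM m (i - s)).card : ℚ) := by
      rw [Finset.mul_sum]
      exact Finset.sum_le_sum fun s _ => h5 _
    have h8 : (A.card : ℚ) + ∑ s ∈ range i, ((sl A 0 + MM m (i - s)).card : ℚ) ≤
        ((cls (A + A + MM (m + 1) g) R).card : ℚ) := by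
      exact_mod_cast h2.trans h1
    have h9 : ((MM (m + 1) (J + i)).card : ℚ) = ((MM (m + 1) J).card : ℚ) +
        ∑ s ∈ range i, ((MM m (J + (i - s))).card : ℚ) := by exact_mod_cast h4
    have h10 : ((cls (MM (m + 1) (2 * J + g)) R).card : ℚ) - ((MM (m + 1) J).card : ℚ) ≤
        ∑ s ∈ range i, ((MM m (J + (i - s))).card : ℚ) := by
      have : ((cls (MM (m + 1) (2 * J + g)) R).card : ℚ) ≤ ((MM (m + 1) (J + i)).card : ℚ) := by
        exact_mod_cast h3
      linarith
    have h11 := mul_le_mul_of_nonneg_left h10 hv0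
    linarith
  · obtain ⟨k, hk⟩ : ∃ k, R.card = g + 2 * k := ⟨(R.card - g) / 2, by omega⟩
    have h1 := class_down hs hk
    by_cases hkJ : k ≤ J
    · have h2 := card_filter_le (k := k) A
      have h3 : (cls (MM (m + 1) (2 * J + g)) R).card ≤ (MM (m + 1) (J - k)).card :=
        card_cls_MM (by omega)
      have h4 := sum_MM_down m hkJ
      have h5 : ∀ s ∈ range k, ((sl A s).card : ℚ) ≤ v * ((MM m (J - s)).card : ℚ) := by
        intro s hs'
        rw [Finset.mem_range] at hs'
        have h6 := hs.sl_density hJ (s := s) (by omega)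
        rw [hv, div_mul_eq_mul_div, le_div_iff₀ hposQ]
        exact_mod_cast h6
      have h7 : ∑ s ∈ range k, ((sl A s).card : ℚ) ≤ v * ∑ s ∈ range k, ((MM m (J - s)).card : ℚ) := by
        rw [Finset.mul_sum]
        exact Finset.sum_le_sum h5
      have h8 : (A.card : ℚ) ≤ ((cls (A + A + MM (m + 1) g) R).card : ℚ) + ∑ s ∈ range k, ((sl A s).card : ℚ) := by
        exact_mod_cast h2.trans (Nat.add_le_add_right h1 _)
      have h9 : ((MM (m + 1) J).card : ℚ) = ((MM (m + 1) (J - k)).card : ℚ) +
          ∑ s ∈ range k, ((MM m (J - s)).card : ℚ) := by exact_mod_cast h4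
      have h10 : ((cls (MM (m + 1) (2 * J + g)) R).card : ℚ) - ((MM (m + 1) J).card : ℚ) ≤
          -∑ s ∈ range k, ((MM m (J - s)).card : ℚ) := by
        have : ((cls (MM (m + 1) (2 * J + g)) R).card : ℚ) ≤ ((MM (m + 1) (J - k)).card : ℚ) := by
          exact_mod_cast h3
        linarith
      have h11 := mul_le_mul_of_nonneg_left h10 hv0
      linarith
    · have h3 : (cls (MM (m + 1) (2 * J + g)) R).card = 0 := cls_MM_empty (by omega)
      have h4 := hs.density hJ
      have h5 : (A.card : ℚ) ≤ v * ((MM (m + 1) J).card : ℚ) := by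
        rw [hv, div_mul_eq_mul_div, le_div_iff₀ hposQ]
        exact_mod_cast h4
      have h6 : (0 : ℚ) ≤ ((cls (A + A + MM (m + 1) g) R).card : ℚ) := by positivity
      rw [h3]
      push_cast
      linarith

/-- the lower bound for stable sets, when there are monomials of degree `J` without the first variable -/
theorem stable_count_aux (hJ : A ⊆ MM (m + 1) J) (hs : Stable A) (hpos : 0 < (MM m J).card) :
    ∃ v : ℚ, (A.card : ℚ) ≤ v * ((MM (m + 1) J).card : ℚ) ∧ v ≤ 1 ∧ 0 ≤ v ∧
      2 ^ m * (A.card : ℚ) + v * (((MM (m + 1) (2 * J + g)).card : ℚ) - 2 ^ m * ((MM (m + 1) J).card : ℚ)) ≤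
        ((A + A + MM (m + 1) g).card : ℚ) := by
  have hposQ : (0 : ℚ) < ((MM m J).card : ℚ) := by exact_mod_cast hpos
  refine ⟨((sl A 0).card : ℚ) / ((MM m J).card : ℚ), ?_, ?_, by positivity, ?_⟩
  · rw [div_mul_eq_mul_div, le_div_iff₀ hposQ]
    exact_mod_cast hs.density hJ
  · rw [div_le_one hposQ]
    have h := Finset.card_le_card (sl_subset (s := 0) hJ)
    rw [Nat.sub_zero] at h
    exact_mod_cast h
  · set v : ℚ := ((sl A 0).card : ℚ) / ((MM m J).card : ℚ) with hv
    set Gd := (Finset.univ : Finset (Finset (Fin (m + 1)))).filter fun R => R.card % 2 = g % 2 with hGd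
    have h1 : ∑ R ∈ Gd, ((A.card : ℚ) + v * (((cls (MM (m + 1) (2 * J + g)) R).card : ℚ) -
        ((MM (m + 1) J).card : ℚ))) ≤ ∑ R ∈ Gd, ((cls (A + A + MM (m + 1) g) R).card : ℚ) := by
      refine Finset.sum_le_sum fun R hR => ?_
      rw [hGd, Finset.mem_filter] at hR
      exact class_bound hJ hs hpos hR.2
    have h2 : ∑ R ∈ Gd, ((cls (A + A + MM (m + 1) g) R).card : ℚ) ≤ ((A + A + MM (m + 1) g).card : ℚ) := by
      rw [card_eq_sum_cls (A + A + MM (m + 1) g)]
      push_cast
      refine Finset.sum_le_sum_of_subset_of_nonneg (Finset.subset_univ _) fun _ _ _ => by positivity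
    have h3 : ∑ R ∈ Gd, ((cls (MM (m + 1) (2 * J + g)) R).card : ℚ) = ((MM (m + 1) (2 * J + g)).card : ℚ) := by
      rw [card_eq_sum_cls (MM (m + 1) (2 * J + g))]
      push_cast
      refine Finset.sum_subset (Finset.subset_univ _) ?_
      intro R _ hR
      rw [hGd, Finset.mem_filter] at hR
      have : (cls (MM (m + 1) (2 * J + g)) R).card = 0 := by
        refine cls_MM_empty ?_
        intro j hj
        exact hR ⟨Finset.mem_univ _, by omega⟩
      rw [this]
      simp
    have h4 : (Gd.card : ℚ) = 2 ^ m := by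
      rw [hGd, card_parity]
      push_cast
      ring
    have h5 : ∑ R ∈ Gd, ((A.card : ℚ) + v * (((cls (MM (m + 1) (2 * J + g)) R).card : ℚ) -
        ((MM (m + 1) J).card : ℚ))) = 2 ^ m * (A.card : ℚ) +
        v * (((MM (m + 1) (2 * J + g)).card : ℚ) - 2 ^ m * ((MM (m + 1) J).card : ℚ)) := by
      rw [Finset.sum_add_distrib, ← Finset.mul_sum, Finset.sum_sub_distrib, Finset.sum_const, Finset.sum_const,
        nsmul_eq_mul, nsmul_eq_mul, h4, h3]
    linarith

end main

end Pool.Agent.H80.FB
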