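import Pool.Agent.H80.FB.Match

/-!
# Slices of stable sets of monomials
-/

set_option autoImplicit false

open Finset
open scoped Pointwise

namespace Pool.Agent.H80.FB

/-- stable sets: moving a unit to a later variable stays in the set -/
def Stable {n : ℕ} (A : Finset (Fin n → ℕ)) : Prop :=
  ∀ (b : Fin n → ℕ) (p q : Fin n), p < q → b + ee p ∈ A → b + ee q ∈ A

/-- `cons` for exponent vectors -/
abbrev cn {m : ℕ} (s : ℕ) (y : Fin m → ℕ) : Fin (m + 1) → ℕ := Fin.cons s y

theorem cn_mem_MM {m : ℕ} {s j : ℕ} {y : Fin m → ℕ} : cn s y ∈ MM (m + 1) j ↔ s + ∑ i, y i = j := by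
  rw [mem_MM, Fin.sum_univ_succ]
  simp [cn]

theorem cn_add {m : ℕ} (s t : ℕ) (y z : Fin m → ℕ) : cn s y + cn t z = cn (s + t) (y + z) := by
  funext i
  refine Fin.cases ?_ (fun i => ?_) i <;> simp [cn]

theorem cn_tail {m : ℕ} (a : Fin (m + 1) → ℕ) : cn (a 0) (Fin.tail a) = a := Fin.cons_self_tail a

theorem cn_inj {m : ℕ} {s t : ℕ} {y z : Fin m → ℕ} (h : cn s y = cn t z) : s = t ∧ y = z := by
  have h0 := congrFun h 0
  refine ⟨by simpa [cn] using h0, ?_⟩
  funext i
  have h1 := congrFun h i.succ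
  simpa [cn] using h1

theorem ee_zero {m : ℕ} : (ee 0 : Fin (m + 1) → ℕ) = cn 1 0 := by
  funext i
  refine Fin.cases ?_ (fun i => ?_) i
  · simp [ee, cn]
  · simp [ee, cn]

theorem ee_succ {m : ℕ} (q : Fin m) : (ee q.succ : Fin (m + 1) → ℕ) = cn 0 (ee q) := by
  funext i
  refine Fin.cases ?_ (fun i => ?_) i
  · simp [ee, cn, (Fin.succ_ne_zero q).symm]
  · simp [ee, cn, Pi.single_apply]

theorem eq_ee {n : ℕ} {c : Fin n → ℕ} (hc : c ∈ MM n 1) : ∃ q, c = ee q := by
  have hne : ∃ i, c i ≠ 0 := by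
    by_contra h
    push Not at h
    rw [mem_MM] at hc
    simp [h] at hc
  obtain ⟨i, hi⟩ := hne
  obtain ⟨b, hb, rfl⟩ := exists_sub hc hi
  rw [MM_zero, Finset.mem_singleton] at hb
  exact ⟨i, by rw [hb, zero_add]⟩

/-- in a stable set `k` units of the first variable can be moved anywhere -/
theorem Stable.shift {m : ℕ} {A : Finset (Fin (m + 1) → ℕ)} (hA : Stable A) (k : ℕ) :
    ∀ (z T : Fin (m + 1) → ℕ), z + cn k 0 ∈ A → T ∈ MM (m + 1) k → z + T ∈ A := by
  induction k with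
  | zero =>
    intro z T hz hT
    rw [MM_zero, Finset.mem_singleton] at hT
    subst hT
    have : (cn 0 0 : Fin (m + 1) → ℕ) = 0 := by
      funext i
      refine Fin.cases ?_ (fun i => ?_) i <;> simp [cn]
    rwa [this] at hz
  | succ k ih =>
    intro z T hz hT
    rw [← MM_add_one, Finset.mem_add] at hT
    obtain ⟨T', hT', c, hc, rfl⟩ := hT
    obtain ⟨q, rfl⟩ := eq_ee hc
    have h1 : (z + ee 0) + cn k 0 ∈ A := by
      have : (z + ee 0) + cn k 0 = z + cn (k + 1) 0 := by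
        rw [ee_zero, add_assoc, cn_add, add_comm 1 k, add_zero]
      rwa [this]
    have h2 := ih (z + ee 0) T' h1 hT'
    have h3 : (z + T') + ee 0 ∈ A := by
      have : (z + T') + ee 0 = z + ee 0 + T' := by abel
      rwa [this]
    rw [← add_assoc]
    by_cases hq : q = 0
    · rw [hq]
      exact h3
    · exact hA _ 0 q (Fin.pos_of_ne_zero hq) h3

/-- the slice `x₀ = s` -/
def sl {m : ℕ} (A : Finset (Fin (m + 1) → ℕ)) (s : ℕ) : Finset (Fin m → ℕ) :=
  (A.filter fun a => a 0 = s).image Fin.tail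

theorem mem_sl {m : ℕ} {A : Finset (Fin (m + 1) → ℕ)} {s : ℕ} {y : Fin m → ℕ} : y ∈ sl A s ↔ cn s y ∈ A := by
  rw [sl, Finset.mem_image]
  constructor
  · rintro ⟨a, ha, rfl⟩
    rw [Finset.mem_filter] at ha
    rw [← ha.2, cn_tail]
    exact ha.1
  · intro h
    exact ⟨cn s y, Finset.mem_filter.2 ⟨h, by simp [cn]⟩, by simp [cn]⟩

theorem card_sl {m : ℕ} (A : Finset (Fin (m + 1) → ℕ)) (s : ℕ) :
    (sl A s).card = (A.filter fun a => a 0 = s).card := by
  rw [sl]
  refine Finset.card_image_of_injOn ?_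
  intro a ha b hb h
  rw [Finset.mem_coe, Finset.mem_filter] at ha hb
  rw [← cn_tail a, ← cn_tail b, ha.2, hb.2, h]

/-- the cardinality is the sum of the cardinalities of the slices -/
theorem card_eq_sum_sl {m j : ℕ} {A : Finset (Fin (m + 1) → ℕ)} (hA : A ⊆ MM (m + 1) j) :
    A.card = ∑ s ∈ range (j + 1), (sl A s).card := by
  simp only [card_sl]
  refine Finset.card_eq_sum_card_fiberwise ?_
  intro a ha
  have h1 := hA ha
  rw [← cn_tail a, cn_mem_MM] at h1
  simp only [Finset.coe_range, Set.mem_Iio]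
  omega

theorem sl_MM {m j s : ℕ} (hs : s ≤ j) : sl (MM (m + 1) j) s = MM m (j - s) := by
  ext y
  rw [mem_sl, cn_mem_MM, mem_MM]
  omega

theorem sl_subset {m j s : ℕ} {A : Finset (Fin (m + 1) → ℕ)} (hA : A ⊆ MM (m + 1) j) : sl A s ⊆ MM m (j - s) := by
  intro y hy
  rw [mem_sl] at hy
  have := hA hy
  rw [cn_mem_MM] at this
  rw [mem_MM]
  omega

theorem card_MM_eq_sum (m j : ℕ) : (MM (m + 1) j).card = ∑ s ∈ range (j + 1), (MM m (j - s)).card := by
  rw [card_eq_sum_sl (le_refl _)]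
  refine Finset.sum_congr rfl fun s hs => ?_
  rw [sl_MM (by simpa [Nat.lt_succ_iff] using hs)]

/-- the lower slices of a stable set are denser -/
theorem Stable.sl_add {m : ℕ} {A : Finset (Fin (m + 1) → ℕ)} (hA : Stable A) (s : ℕ) :
    sl A s + MM m s ⊆ sl A 0 := by
  intro y hy
  obtain ⟨w, hw, T, hT, rfl⟩ := Finset.mem_add.1 hy
  rw [mem_sl] at hw ⊢
  have h1 : cn 0 w + cn s 0 ∈ A := by rwa [cn_add, zero_add, add_zero]
  have h2 := hA.shift s (cn 0 w) (cn 0 T) h1 (by rw [cn_mem_MM, zero_add]; exact mem_MM.1 hT)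
  rwa [cn_add, zero_add] at h2

theorem Stable.sl_density {m J : ℕ} {A : Finset (Fin (m + 1) → ℕ)} (hA : Stable A) (hJ : A ⊆ MM (m + 1) J)
    {s : ℕ} (hs : s ≤ J) : (sl A s).card * (MM m J).card ≤ (sl A 0).card * (MM m (J - s)).card := by
  have h1 := match_add (sl A s) (sl_subset (s := s) hJ) s
  rw [Nat.sub_add_cancel hs] at h1
  exact h1.trans (Nat.mul_le_mul_right _ (Finset.card_le_card (hA.sl_add s)))

theorem Stable.density {m J : ℕ} {A : Finset (Fin (m + 1) → ℕ)} (hA : Stable A) (hJ : A ⊆ MM (m + 1) J) :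
    A.card * (MM m J).card ≤ (sl A 0).card * (MM (m + 1) J).card := by
  rw [card_eq_sum_sl hJ, card_MM_eq_sum, Finset.sum_mul, Finset.mul_sum]
  refine Finset.sum_le_sum fun s hs => ?_
  exact hA.sl_density hJ (by simpa [Nat.lt_succ_iff] using hs)

/-- the sets `A + MM i` -/
theorem card_add_MM {m J i : ℕ} {A : Finset (Fin (m + 1) → ℕ)} (hJ : A ⊆ MM (m + 1) J) :
    A.card + ∑ s ∈ range i, (sl A 0 + MM m (i - s)).card ≤ (A + MM (m + 1) i).card := by
  have hsub : A + MM (m + 1) i ⊆ MM (m + 1) (J + i) := by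
    intro b hb
    obtain ⟨a, ha, c, hc, rfl⟩ := Finset.mem_add.1 hb
    exact add_mem (hJ ha) hc
  rw [card_eq_sum_sl hsub, card_eq_sum_sl hJ]
  have hsplit : J + i + 1 = i + (J + 1) := by ring
  rw [hsplit, Finset.sum_range_add _ i (J + 1), add_comm]
  refine Nat.add_le_add ?_ ?_
  · refine Finset.sum_le_sum fun s hs => Finset.card_le_card ?_
    rw [Finset.mem_range] at hs
    intro y hy
    obtain ⟨w, hw, T, hT, rfl⟩ := Finset.mem_add.1 hy
    rw [mem_sl] at hw ⊢
    refine Finset.mem_add.2 ⟨cn 0 w, hw, cn s T, ?_, by rw [cn_add, zero_add]⟩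
    rw [cn_mem_MM]
    rw [mem_MM] at hT
    omega
  · refine Finset.sum_le_sum fun s _ => Finset.card_le_card ?_
    intro y hy
    rw [mem_sl] at hy ⊢
    refine Finset.mem_add.2 ⟨cn s y, hy, cn i 0, ?_, by rw [cn_add, add_zero, add_comm s i]⟩
    rw [cn_mem_MM]
    simp

/-- partial sums of the numbers of monomials, upwards -/
theorem sum_MM_up (m J i : ℕ) :
    (MM (m + 1) (J + i)).card = (MM (m + 1) J).card + ∑ s ∈ range i, (MM m (J + (i - s))).card := by
  rw [card_MM_eq_sum m (J + i), card_MM_eq_sum m J]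
  have hsplit : J + i + 1 = i + (J + 1) := by ring
  rw [hsplit, Finset.sum_range_add _ i (J + 1), add_comm]
  congr 1
  · refine Finset.sum_congr rfl fun s _ => ?_
    congr 2
    omega
  · refine Finset.sum_congr rfl fun s hs => ?_
    rw [Finset.mem_range] at hs
    congr 2
    omega

/-- partial sums of the numbers of monomials, downwards -/
theorem sum_MM_down (m : ℕ) {J k : ℕ} (hk : k ≤ J) :
    (MM (m + 1) J).card = (MM (m + 1) (J - k)).card + ∑ s ∈ range k, (MM m (J - s)).card := by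
  have h := sum_MM_up m (J - k) k
  rw [Nat.sub_add_cancel hk] at h
  rw [h]
  congr 1
  refine Finset.sum_congr rfl fun s hs => ?_
  rw [Finset.mem_range] at hs
  congr 2
  omega

theorem card_filter_le {m k : ℕ} (A : Finset (Fin (m + 1) → ℕ)) :
    A.card ≤ (A.filter fun a => k ≤ a 0).card + ∑ s ∈ range k, (sl A s).card := by
  have h1 : A.card = (A.filter fun a => k ≤ a 0).card + (A.filter fun a => ¬ k ≤ a 0).card :=
    (Finset.card_filter_add_card_filter_not (fun a : Fin (m + 1) → ℕ => k ≤ a 0)).symm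
  rw [h1]
  refine Nat.add_le_add_left ?_ _
  have h2 : (A.filter fun a => ¬ k ≤ a 0).card =
      ∑ s ∈ range k, ((A.filter fun a => ¬ k ≤ a 0).filter fun a => a 0 = s).card := by
    refine Finset.card_eq_sum_card_fiberwise ?_
    intro a ha
    rw [Finset.mem_coe, Finset.mem_filter] at ha
    simp only [Finset.coe_range, Set.mem_Iio]
    omega
  rw [h2]
  refine Finset.sum_le_sum fun s _ => ?_
  rw [card_sl]
  refine Finset.card_le_card ?_
  intro a ha
  rw [Finset.mem_filter, Finset.mem_filter] at ha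
  exact Finset.mem_filter.2 ⟨ha.1.1, ha.2⟩

end Pool.Agent.H80.FB
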