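import Mathlib

/-!
# Normalised matching for monomials

`MM n j` is the set of exponent vectors of degree `j` in `n` variables.
-/

set_option autoImplicit false

open Finset
open scoped Pointwise

namespace Pool.Agent.H80.FB

/-- exponent vectors of degree `j` in `n` variables -/
def MM (n j : ℕ) : Finset (Fin n → ℕ) := Finset.piAntidiag Finset.univ j

theorem mem_MM {n j : ℕ} {a : Fin n → ℕ} : a ∈ MM n j ↔ ∑ i, a i = j := by
  simp [MM]

theorem MM_zero (n : ℕ) : MM n 0 = {0} := by
  simp [MM]

theorem add_MM_zero {n : ℕ} (P : Finset (Fin n → ℕ)) : P + MM n 0 = P := by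
  rw [MM_zero, Finset.add_singleton]
  simp

/-- the unit vector -/
def ee {n : ℕ} (i : Fin n) : Fin n → ℕ := Pi.single i 1

theorem ee_mem {n : ℕ} (i : Fin n) : ee i ∈ MM n 1 := by
  rw [mem_MM]
  simp [ee]

theorem add_mem {n j l : ℕ} {a b : Fin n → ℕ} (ha : a ∈ MM n j) (hb : b ∈ MM n l) : a + b ∈ MM n (j + l) := by
  rw [mem_MM] at *
  simp [Finset.sum_add_distrib, ha, hb]

theorem exists_sub {n j : ℕ} {a : Fin n → ℕ} (ha : a ∈ MM n (j + 1)) {i : Fin n} (hi : a i ≠ 0) :
    ∃ b ∈ MM n j, a = b + ee i := by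
  refine ⟨a - ee i, ?_, ?_⟩
  · rw [mem_MM] at *
    have h : ∀ k, a k = (a - ee i) k + ee i k := by
      intro k
      by_cases hk : k = i
      · subst hk
        simp only [ee, Pi.sub_apply, Pi.single_eq_same]
        omega
      · simp [ee, hk]
    have h2 : ∑ k, a k = ∑ k, (a - ee i) k + ∑ k, ee i k := by
      rw [← Finset.sum_add_distrib]
      exact Finset.sum_congr rfl fun k _ => h k
    have h3 : ∑ k, ee i k = 1 := by simp [ee]
    omega
  · funext k
    by_cases hk : k = i
    · subst hk
      simp only [ee, Pi.sub_apply, Pi.add_apply, Pi.single_eq_same]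
      omega
    · simp [ee, hk]

theorem MM_add_one (n j : ℕ) : MM n j + MM n 1 = MM n (j + 1) := by
  ext a
  rw [Finset.mem_add]
  constructor
  · rintro ⟨b, hb, c, hc, rfl⟩
    exact add_mem hb hc
  · intro ha
    have hne : ∃ i, a i ≠ 0 := by
      by_contra h
      push Not at h
      rw [mem_MM] at ha
      simp [h] at ha
    obtain ⟨i, hi⟩ := hne
    obtain ⟨b, hb, rfl⟩ := exists_sub ha hi
    exact ⟨b, hb, ee i, ee_mem i, rfl⟩

theorem MM_add (n j l : ℕ) : MM n j + MM n l = MM n (j + l) := by
  induction l with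
  | zero => rw [add_MM_zero, add_zero]
  | succ l ih => rw [← MM_add_one n l, ← add_assoc, ih, MM_add_one, add_assoc]

/-- one step of normalised matching -/
theorem match_one {m J : ℕ} (P : Finset (Fin m → ℕ)) (hP : P ⊆ MM m J) :
    P.card * (J + m) ≤ (P + MM m 1).card * (J + 1) := by
  have h1 : ∑ a ∈ P, ∑ i, (a i + 1) = P.card * (J + m) := by
    rw [Finset.sum_const_nat (m := J + m)]
    intro a ha
    have := mem_MM.1 (hP ha)
    rw [Finset.sum_add_distrib, this]
    simp
  have h2 : ∑ b ∈ P + MM m 1, ∑ i, b i = (P + MM m 1).card * (J + 1) := by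
    rw [Finset.sum_const_nat (m := J + 1)]
    intro b hb
    obtain ⟨a, ha, c, hc, rfl⟩ := Finset.mem_add.1 hb
    exact mem_MM.1 (add_mem (hP ha) hc)
  rw [← h1, ← h2, Finset.sum_comm, Finset.sum_comm (s := P + MM m 1)]
  refine Finset.sum_le_sum fun i _ => ?_
  have hinj : Set.InjOn (fun a : Fin m → ℕ => a + ee i) (P : Set (Fin m → ℕ)) := by
    intro a _ b _ h
    exact add_right_cancel h
  have h3 : ∑ b ∈ P.image (fun a => a + ee i), b i = ∑ a ∈ P, (a i + 1) := by
    rw [Finset.sum_image hinj]
    refine Finset.sum_congr rfl fun a _ => ?_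
    simp [ee]
  rw [← h3]
  refine Finset.sum_le_sum_of_subset ?_
  intro b hb
  obtain ⟨a, ha, rfl⟩ := Finset.mem_image.1 hb
  exact Finset.mem_add.2 ⟨a, ha, ee i, ee_mem i, rfl⟩

/-- the recursion for the number of monomials -/
theorem card_MM_succ (m J : ℕ) : (MM m J).card * (J + m) = (MM m (J + 1)).card * (J + 1) := by
  refine le_antisymm ?_ ?_
  · have := match_one (MM m J) le_rfl
    rwa [MM_add_one] at this
  · have h1 : ∑ a ∈ MM m J, ∑ i, (a i + 1) = (MM m J).card * (J + m) := by
      rw [Finset.sum_const_nat (m := J + m)]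
      intro a ha
      have := mem_MM.1 ha
      rw [Finset.sum_add_distrib, this]
      simp
    have h2 : ∑ b ∈ MM m (J + 1), ∑ i, b i = (MM m (J + 1)).card * (J + 1) := by
      rw [Finset.sum_const_nat (m := J + 1)]
      intro b hb
      exact mem_MM.1 hb
    rw [← h1, ← h2, Finset.sum_comm, Finset.sum_comm (s := MM m J)]
    refine Finset.sum_le_sum fun i _ => ?_
    have hinj : Set.InjOn (fun a : Fin m → ℕ => a + ee i) (MM m J : Set (Fin m → ℕ)) := by
      intro a _ b _ h
      exact add_right_cancel h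
    have h3 : ∑ b ∈ (MM m J).image (fun a => a + ee i), b i = ∑ a ∈ MM m J, (a i + 1) := by
      rw [Finset.sum_image hinj]
      refine Finset.sum_congr rfl fun a _ => ?_
      simp [ee]
    rw [← h3, ← Finset.sum_filter_ne_zero]
    refine Finset.sum_le_sum_of_subset ?_
    intro b hb
    rw [Finset.mem_filter] at hb
    obtain ⟨c, hc, rfl⟩ := exists_sub hb.1 hb.2
    exact Finset.mem_image.2 ⟨c, hc, rfl⟩

/-- normalised matching: the density of `P + MM m l` is at least the density of `P` -/
theorem match_add {m J : ℕ} (P : Finset (Fin m → ℕ)) (hP : P ⊆ MM m J) (l : ℕ) :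
    P.card * (MM m (J + l)).card ≤ (P + MM m l).card * (MM m J).card := by
  induction l with
  | zero => rw [add_MM_zero, add_zero]
  | succ l ih =>
    have hsub : P + MM m l ⊆ MM m (J + l) := by
      intro b hb
      obtain ⟨a, ha, c, hc, rfl⟩ := Finset.mem_add.1 hb
      exact add_mem (hP ha) hc
    have h1 := match_one (P + MM m l) hsub
    have h0 : P + MM m l + MM m 1 = P + MM m (l + 1) := by rw [add_assoc, MM_add_one]
    rw [h0] at h1
    have h2 := card_MM_succ m (J + l)
    have hpos : 0 < J + l + 1 := by omega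
    refine Nat.le_of_mul_le_mul_right ?_ hpos
    calc P.card * (MM m (J + (l + 1))).card * (J + l + 1)
        = P.card * ((MM m (J + l + 1)).card * (J + l + 1)) := by rw [← add_assoc]; ring
      _ = P.card * (MM m (J + l)).card * (J + l + m) := by rw [← h2]; ring
      _ ≤ (P + MM m l).card * (MM m J).card * (J + l + m) := Nat.mul_le_mul_right _ ih
      _ = (P + MM m l).card * (J + l + m) * (MM m J).card := by ring
      _ ≤ (P + MM m (l + 1)).card * (J + l + 1) * (MM m J).card := Nat.mul_le_mul_right _ h1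
      _ = (P + MM m (l + 1)).card * (MM m J).card * (J + l + 1) := by ring

end Pool.Agent.H80.FB
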